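import Pool.Agent.Q99.FAL.Stm

/-!
# `q`-binomial identities

`task_QV` is the `q`-Vandermonde identity and `task_QB` the `q`-binomial theorem.
-/

set_option autoImplicit false

namespace Pool.Agent.Q2.FAL

open Finset
open Pool.Agent.Q99.FAL (bq ph uv wv zv Zm S_QV S_QB S_ZD)
open Pool.Agent.Q99.FW (TZ Tri)
open Pool.Agent.Q191.TW (cs cs_add cs_zero cs_ne cs_neg cs_period I_pow)
open Pool.Agent.W719.BS (D D_refl D_pos)

/-! ### the `q`-binomial coefficients -/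

theorem bq_neg (N : ℕ) (n k : ℤ) (h : k < 0) : bq N n k = 0 := by
  unfold bq TZ
  rw [if_neg (by omega)]

theorem bq_big (N : ℕ) (n k : ℤ) (h : n < k) : bq N n k = 0 := by
  unfold bq TZ
  rw [if_neg (by omega)]

theorem bq_eq (N n k : ℕ) (h : n < N) (hk : k ≤ n) :
    bq N n k = D N n / (D N k * D N (n - k)) := by
  unfold bq TZ
  rw [if_pos (by omega)]
  have e1 : ((n : ℤ) - k).toNat = n - k := by omega
  have e2 : ((N : ℤ) - 1 - n).toNat = N - 1 - n := by omega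
  rw [Int.toNat_natCast, e1, e2]
  unfold Tri
  have h1 := D_refl N n (N - 1 - n) (by omega)
  have p1 := D_pos N n h
  have p2 := D_pos N k (by omega)
  have p3 := D_pos N (n - k) (by omega)
  have p4 := D_pos N (N - 1 - n) (by omega)
  rw [← h1]
  field_simp

theorem D_succ (N n : ℕ) : D N (n + 1) = D N n * (2 * Real.sin (Real.pi * (n + 1) / N)) := by
  unfold D; rw [prod_range_succ]

/-- twice the sine -/
noncomputable def s2 (N : ℕ) (x : ℝ) : ℝ := 2 * Real.sin (Real.pi * x / N)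

theorem s2_cs (N : ℕ) (x : ℝ) : ((s2 N x : ℝ) : ℂ) = -Complex.I * (cs N x - cs N (-x)) := by
  unfold s2 cs
  push_cast
  rw [Complex.sin]
  have e : (Real.pi : ℂ) * -(x : ℂ) / N * Complex.I = -((Real.pi : ℂ) * x / N * Complex.I) := by ring
  rw [e]
  have e2 : -((Real.pi : ℂ) * x / N) * Complex.I = -((Real.pi : ℂ) * x / N * Complex.I) := by ring
  rw [e2]
  ring

theorem D_succ' (N n : ℕ) : D N (n + 1) = D N n * s2 N (n + 1) := D_succ N n

theorem s2_id (N : ℕ) (n k : ℝ) :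
    cs N k * ((s2 N (n - k) : ℝ) : ℂ) + cs N (-(n - k)) * ((s2 N k : ℝ) : ℂ) =
      ((s2 N n : ℝ) : ℂ) := by
  rw [s2_cs, s2_cs, s2_cs]
  have e1 : cs N n = cs N k * cs N (n - k) := by rw [← cs_add]; congr 1; ring
  have e2 : cs N (-n) = cs N (-(n - k)) * cs N (-k) := by rw [← cs_add]; congr 1; ring
  rw [e1, e2]
  ring

/-- Pascal, first form -/
theorem P1 (N n : ℕ) (h : n + 1 < N) (k : ℤ) :
    ((bq N (n + 1) k : ℝ) : ℂ) = cs N k * ((bq N n k : ℝ) : ℂ) +
      cs N (-((n : ℝ) + 1 - k)) * ((bq N n (k - 1) : ℝ) : ℂ) := by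
  rcases lt_or_ge k 0 with h0 | h0
  · rw [bq_neg _ _ _ h0, bq_neg _ _ _ h0, bq_neg _ _ (k - 1) (by omega)]
    simp
  rcases lt_or_ge ((n : ℤ) + 1) k with h1 | h1
  · rw [bq_big _ _ _ h1, bq_big _ _ k (by omega), bq_big _ _ (k - 1) (by omega)]
    simp
  obtain ⟨m, rfl⟩ : ∃ m : ℕ, k = m := ⟨k.toNat, by omega⟩
  have hm : m ≤ n + 1 := by omega
  have en : ((n : ℤ) + 1) = ((n + 1 : ℕ) : ℤ) := by push_cast; rfl
  rcases Nat.eq_zero_or_pos m with hm0 | hm0
  · subst hm0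
    rw [en, bq_eq N (n + 1) 0 h (by omega), bq_eq N n 0 (by omega) (by omega),
      bq_neg _ _ (((0 : ℕ) : ℤ) - 1) (by simp)]
    have p1 := (D_pos N (n + 1) h).ne'
    have p2 := (D_pos N n (by omega)).ne'
    have p3 := (D_pos N 0 (by omega)).ne'
    have hD0 : D N 0 = 1 := by simp [D]
    simp [hD0, p1, p2, cs_zero]
  rcases Nat.lt_or_ge n m with hm1 | hm1
  · have : m = n + 1 := by omega
    subst this
    rw [en, bq_eq N (n + 1) (n + 1) h le_rfl, bq_big N n ((n + 1 : ℕ) : ℤ) (by push_cast; omega)]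
    have e3 : (((n + 1 : ℕ) : ℤ) - 1) = (n : ℕ) := by push_cast; ring
    rw [e3, bq_eq N n n (by omega) le_rfl]
    have p1 := (D_pos N (n + 1) h).ne'
    have p2 := (D_pos N n (by omega)).ne'
    have hD0 : D N 0 = 1 := by simp [D]
    have e4 : (n : ℝ) + 1 - (((n + 1 : ℕ) : ℤ) : ℝ) = 0 := by push_cast; ring
    rw [e4]
    simp [hD0, p1, p2, cs_zero]
  · obtain ⟨l, rfl⟩ : ∃ l, m = l + 1 := ⟨m - 1, by omega⟩
    have e3 : (((l + 1 : ℕ) : ℤ) - 1) = (l : ℕ) := by push_cast; ring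
    rw [en, bq_eq N (n + 1) (l + 1) h hm, bq_eq N n (l + 1) (by omega) hm1, e3,
      bq_eq N n l (by omega) (by omega)]
    obtain ⟨j, rfl⟩ : ∃ j, n = l + 1 + j := ⟨n - (l + 1), by omega⟩
    have e5 : l + 1 + j + 1 - (l + 1) = j + 1 := by omega
    have e6 : l + 1 + j - (l + 1) = j := by omega
    have e7 : l + 1 + j - l = j + 1 := by omega
    rw [e5, e6, e7]
    have p1 := (D_pos N (l + 1) (by omega)).ne'
    have p2 := (D_pos N l (by omega)).ne'
    have p3 := (D_pos N (j + 1) (by omega)).ne'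
    have p4 := (D_pos N j (by omega)).ne'
    have q1 := D_succ' N (l + 1 + j)
    have q2 := D_succ' N l
    have q3 := D_succ' N j
    have r2 : s2 N (l + 1) ≠ 0 := by
      intro hz; rw [hz, mul_zero] at q2; exact p1 q2
    have r3 : s2 N (j + 1) ≠ 0 := by
      intro hz; rw [hz, mul_zero] at q3; exact p3 q3
    have key := s2_id N (l + 1 + j + 1) (l + 1)
    have e8 : ((l : ℝ) + 1 + j + 1 - (l + 1)) = j + 1 := by ring
    rw [e8] at key
    have a1 : D N (l + 1 + j + 1) / (D N (l + 1) * D N (j + 1)) =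
        D N (l + 1 + j) / (D N (l + 1) * D N (j + 1)) * s2 N (l + 1 + j + 1) := by
      rw [q1]; push_cast; ring
    have a2 : D N (l + 1 + j) / (D N (l + 1) * D N j) =
        D N (l + 1 + j) / (D N (l + 1) * D N (j + 1)) * s2 N (j + 1) := by
      rw [q3]; field_simp
    have a3 : D N (l + 1 + j) / (D N l * D N (j + 1)) =
        D N (l + 1 + j) / (D N (l + 1) * D N (j + 1)) * s2 N (l + 1) := by
      rw [q2]; field_simp
    rw [a1, a2, a3]
    set X := D N (l + 1 + j) / (D N (l + 1) * D N (j + 1))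
    rw [Complex.ofReal_mul, Complex.ofReal_mul, Complex.ofReal_mul, ← key]
    have e9 : (((l + 1 : ℕ) : ℤ) : ℝ) = (l : ℝ) + 1 := by push_cast; ring
    have e10 : ((l + 1 + j : ℕ) : ℝ) + 1 - ((l : ℝ) + 1) = j + 1 := by push_cast; ring
    rw [e9, e10]
    ring

/-- symmetry -/
theorem bq_symm (N : ℕ) (n k : ℤ) : bq N n (n - k) = bq N n k := by
  unfold bq TZ Tri
  have e : n - (n - k) = k := by ring
  rw [e]
  by_cases h : 0 ≤ k ∧ 0 ≤ n - k ∧ 0 ≤ (N : ℤ) - 1 - n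
  · rw [if_pos h, if_pos (by tauto)]
    ring
  · rw [if_neg h, if_neg (by tauto)]

/-- Pascal, second form -/
theorem P2 (N n : ℕ) (h : n + 1 < N) (k : ℤ) :
    ((bq N (n + 1) k : ℝ) : ℂ) = cs N (-k) * ((bq N n k : ℝ) : ℂ) +
      cs N ((n : ℝ) + 1 - k) * ((bq N n (k - 1) : ℝ) : ℂ) := by
  have h1 := P1 N n h (n + 1 - k)
  rw [bq_symm] at h1
  have e1 : bq N n ((n : ℤ) + 1 - k) = bq N n (k - 1) := by
    rw [← bq_symm N n (k - 1)]; congr 1; ring
  have e2 : bq N n ((n : ℤ) + 1 - k - 1) = bq N n k := by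
    rw [← bq_symm N n k]; congr 1; ring
  rw [e1, e2] at h1
  rw [h1]
  have e3 : (((n : ℤ) + 1 - k : ℤ) : ℝ) = (n : ℝ) + 1 - k := by push_cast; ring
  have e4 : -((n : ℝ) + 1 - (((n : ℤ) + 1 - k : ℤ) : ℝ)) = -(k : ℝ) := by push_cast; ring
  rw [e4, e3]
  ring

/-- shift of a sum -/
theorem sum_shift {N : ℕ} (hN : 0 < N) (g : ℤ → ℂ) (h0 : g (-1) = 0) (h1 : g ((N : ℤ) - 1) = 0) :
    ∑ a ∈ range N, g ((a : ℤ) - 1) = ∑ a ∈ range N, g a := by
  obtain ⟨m, rfl⟩ : ∃ m, N = m + 1 := ⟨N - 1, by omega⟩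
  rw [Finset.sum_range_succ', Finset.sum_range_succ]
  have e1 : (((m + 1 : ℕ) : ℤ) - 1) = (m : ℤ) := by push_cast; ring
  rw [e1] at h1
  rw [h1]
  simp only [Nat.cast_zero, zero_sub, h0, add_zero]
  refine Finset.sum_congr rfl fun a _ => ?_
  congr 1
  push_cast; ring

theorem cs_one_pow (N b : ℕ) : cs N 1 ^ b = cs N ((b : ℤ) : ℝ) := by
  induction b with
  | zero => simp [cs_zero]
  | succ b ihb =>
    rw [pow_succ, ihb, ← cs_add]
    congr 1
    push_cast; ring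

theorem task_QB : S_QB := by
  intro N hN n
  induction n with
  | zero =>
    intro _ z
    rw [prod_range_zero, Finset.sum_eq_single 0]
    · have hb : bq N ((0 : ℕ) : ℤ) ((0 : ℕ) : ℤ) = 1 := by
        rw [bq_eq N 0 0 hN le_rfl]; simp [D]
      rw [hb]; simp
    · intro b _ hb
      rw [bq_big N ((0 : ℕ) : ℤ) b (by omega)]; simp
    · intro h; exact absurd (mem_range.2 hN) h
  | succ n ih =>
    intro hn z
    have ih' := ih (by omega) (z * cs N 1)
    have e1 : ∀ b : ℕ, ((bq N ((n + 1 : ℕ) : ℤ) b : ℝ) : ℂ) * z ^ b =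
        ((bq N n b : ℝ) : ℂ) * (z * cs N 1) ^ b +
        cs N (-((n : ℝ) + 1 - b)) * ((bq N n ((b : ℤ) - 1) : ℝ) : ℂ) * z ^ b := by
      intro b
      have := P1 N n hn b
      have en : ((n + 1 : ℕ) : ℤ) = (n : ℤ) + 1 := by push_cast; rfl
      rw [en, this, mul_pow]
      have e2 := cs_one_pow N b
      rw [e2]
      push_cast
      ring
    rw [Finset.sum_congr rfl fun b _ => e1 b, Finset.sum_add_distrib, ih']
    have e4 : ∑ b ∈ range N, cs N (-((n : ℝ) + 1 - b)) *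
        ((bq N n ((b : ℤ) - 1) : ℝ) : ℂ) * z ^ b =
        ∑ b ∈ range N, (fun c : ℤ => cs N (-((n : ℝ) - c)) * ((bq N n c : ℝ) : ℂ) *
          z ^ (c + 1).toNat) ((b : ℤ) - 1) := by
      refine Finset.sum_congr rfl fun b _ => ?_
      have e5 : ((b : ℤ) - 1 + 1).toNat = b := by omega
      simp only [e5]
      congr 3
      push_cast; ring
    have e10 := sum_shift hN (fun c : ℤ => cs N (-((n : ℝ) - c)) * ((bq N n c : ℝ) : ℂ) *
          z ^ (c + 1).toNat) (by rw [bq_neg N n (-1) (by norm_num)]; simp)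
      (by rw [bq_big N n ((N : ℤ) - 1) (by omega)]; simp)
    rw [e4, e10]
    have e6 : ∑ b ∈ range N, (fun c : ℤ => cs N (-((n : ℝ) - c)) * ((bq N n c : ℝ) : ℂ) *
          z ^ (c + 1).toNat) (b : ℤ) =
        z * cs N (-(n : ℝ)) * ∑ b ∈ range N, ((bq N n b : ℝ) : ℂ) * (z * cs N 1) ^ b := by
      rw [Finset.mul_sum]
      refine Finset.sum_congr rfl fun b _ => ?_
      have e5 : ((b : ℤ) + 1).toNat = b + 1 := by omega
      simp only [e5]
      have e2 := cs_one_pow N b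
      have e7 : cs N (-((n : ℝ) - ((b : ℤ) : ℝ))) = cs N (-(n : ℝ)) * cs N ((b : ℤ) : ℝ) := by
        rw [← cs_add]; congr 1; ring
      rw [mul_pow, e2, e7]
      ring
    rw [e6, ih', prod_range_succ]
    have e8 : ∏ t ∈ range n, (1 + z * cs N 1 * cs N ((n : ℝ) - 1 - 2 * t)) =
        ∏ t ∈ range n, (1 + z * cs N (((n + 1 : ℕ) : ℝ) - 1 - 2 * t)) := by
      refine Finset.prod_congr rfl fun t _ => ?_
      rw [mul_assoc, ← cs_add]
      congr 3
      push_cast; ring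
    rw [e8]
    have e9 : (((n + 1 : ℕ) : ℝ) - 1 - 2 * (n : ℕ)) = -(n : ℝ) := by push_cast; ring
    rw [e9]
    ring

/-- the general Vandermonde identity -/
theorem vand (N : ℕ) (hN : 0 < N) : ∀ (m n : ℕ), m + n < N → ∀ M : ℤ,
    ∑ a ∈ range N, cs N (((m : ℝ) + n) * a - m * M) *
      ((bq N m a * bq N n (M - a) : ℝ) : ℂ) = ((bq N ((m : ℤ) + n) M : ℝ) : ℂ)
  | 0, n, hmn, M => by
    rw [Finset.sum_eq_single 0]
    · have hb : bq N ((0 : ℕ) : ℤ) ((0 : ℕ) : ℤ) = 1 := by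
        rw [bq_eq N 0 0 hN le_rfl]; simp [D]
      rw [hb]
      simp [cs_zero]
    · intro b _ hb
      rw [bq_big N ((0 : ℕ) : ℤ) b (by omega)]; simp
    · intro h; exact absurd (mem_range.2 hN) h
  | m + 1, n, hmn, M => by
    have ih := vand N hN m (n + 1) (by omega) M
    have e0 : ((m : ℤ) + ((n + 1 : ℕ) : ℤ)) = (((m + 1 : ℕ) : ℤ) + n) := by push_cast; ring
    rw [e0] at ih
    rw [← ih]
    have em : ((m + 1 : ℕ) : ℤ) = (m : ℤ) + 1 := by push_cast; rfl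
    have en : ((n + 1 : ℕ) : ℤ) = (n : ℤ) + 1 := by push_cast; rfl
    have t1 : ∀ a : ℕ, cs N ((((m + 1 : ℕ) : ℝ) + n) * a - ((m + 1 : ℕ) : ℝ) * M) *
        ((bq N ((m + 1 : ℕ) : ℤ) a * bq N n (M - a) : ℝ) : ℂ) =
        cs N (((m : ℝ) + n + 2) * a - (m + 1) * M) * ((bq N m a * bq N n (M - a) : ℝ) : ℂ) +
        (fun c : ℤ => cs N (((m : ℝ) + n + 2) * (c + 1) - (m + 1) * M - (m + 1)) *
          ((bq N m c * bq N n (M - c - 1) : ℝ) : ℂ)) ((a : ℤ) - 1) := by
      intro a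
      have h1 := P1 N m (by omega) a
      simp only []
      rw [em]
      push_cast
      rw [h1]
      have e1 : cs N (((m : ℝ) + 1 + n) * a - (m + 1) * M) * cs N ((a : ℤ) : ℝ) =
          cs N (((m : ℝ) + n + 2) * a - (m + 1) * M) := by
        rw [← cs_add]; congr 1; push_cast; ring
      have e2 : cs N (((m : ℝ) + 1 + n) * a - (m + 1) * M) * cs N (-((m : ℝ) + 1 - ((a : ℤ) : ℝ))) =
          cs N (((m : ℝ) + n + 2) * ((a : ℝ) - 1 + 1) - (m + 1) * M - (m + 1)) := by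
        rw [← cs_add]; congr 1; push_cast; ring
      have e3 : M - ((a : ℤ) - 1) - 1 = M - a := by ring
      rw [e3, ← e1, ← e2]
      push_cast
      ring
    have t2 : ∀ a : ℕ, cs N (((m : ℝ) + ((n + 1 : ℕ) : ℝ)) * a - m * M) *
        ((bq N m a * bq N ((n + 1 : ℕ) : ℤ) (M - a) : ℝ) : ℂ) =
        cs N (((m : ℝ) + n + 2) * a - (m + 1) * M) * ((bq N m a * bq N n (M - a) : ℝ) : ℂ) +
        (fun c : ℤ => cs N (((m : ℝ) + n + 2) * (c + 1) - (m + 1) * M - (m + 1)) *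
          ((bq N m c * bq N n (M - c - 1) : ℝ) : ℂ)) (a : ℤ) := by
      intro a
      have h1 := P2 N n (by omega) (M - a)
      simp only []
      rw [en]
      push_cast
      rw [h1]
      have e1 : cs N (((m : ℝ) + (n + 1)) * a - m * M) * cs N (-((M - a : ℤ) : ℝ)) =
          cs N (((m : ℝ) + n + 2) * a - (m + 1) * M) := by
        rw [← cs_add]; congr 1; push_cast; ring
      have e2 : cs N (((m : ℝ) + (n + 1)) * a - m * M) * cs N ((n : ℝ) + 1 - ((M - a : ℤ) : ℝ)) =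
          cs N (((m : ℝ) + n + 2) * ((a : ℝ) + 1) - (m + 1) * M - (m + 1)) := by
        rw [← cs_add]; congr 1; push_cast; ring
      rw [← e1, ← e2]
      ring
    have e10 := sum_shift hN (fun c : ℤ => cs N (((m : ℝ) + n + 2) * (c + 1) - (m + 1) * M -
          (m + 1)) * ((bq N m c * bq N n (M - c - 1) : ℝ) : ℂ))
      (by rw [bq_neg N m (-1) (by norm_num)]; simp)
      (by rw [bq_big N m ((N : ℤ) - 1) (by omega)]; simp)
    rw [Finset.sum_congr rfl fun a _ => t1 a, Finset.sum_congr rfl fun a _ => t2 a,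
      Finset.sum_add_distrib, Finset.sum_add_distrib, e10]

theorem bq_top (N : ℕ) (M : ℕ) (h : M < N) : bq N ((N : ℤ) - 1) M = 1 := by
  have e : (N : ℤ) - 1 = ((N - 1 : ℕ) : ℤ) := by omega
  rw [e, bq_eq N (N - 1) M (by omega) (by omega)]
  have h1 := D_refl N M (N - 1 - M) (by omega)
  have h2 := D_refl N (N - 1) 0 (by omega)
  have h3 : D N 0 = 1 := by simp [D]
  rw [h3, mul_one] at h2
  rw [h1, h2]
  exact div_self (by exact_mod_cast (by omega : N ≠ 0))

theorem task_QV : S_QV := by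
  intro N hN n1 n2 M h hM
  have h1 := vand N hN n2 n1 (by omega) M
  have e1 : ((n2 : ℤ) + n1) = (N : ℤ) - 1 := by omega
  rw [e1, bq_top N M hM] at h1
  have e2 : (n2 : ℝ) + n1 = (N : ℝ) - 1 := by
    have : (n1 : ℝ) + n2 + 1 = N := by exact_mod_cast h
    linarith
  rw [e2] at h1
  have e3 : ∀ a : ℕ, cs N (((N : ℝ) - 1) * a) * ((bq N n2 a * bq N n1 ((M : ℤ) - a) : ℝ) : ℂ) =
      cs N ((n2 : ℝ) * M) * (cs N (((N : ℝ) - 1) * a - n2 * ((M : ℤ) : ℝ)) *
        ((bq N n2 a * bq N n1 ((M : ℤ) - a) : ℝ) : ℂ)) := by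
    intro a
    rw [← mul_assoc, ← cs_add]
    congr 2
    push_cast; ring
  rw [Finset.sum_congr rfl fun a _ => e3 a, ← Finset.mul_sum, h1]
  simp

end Pool.Agent.Q2.FAL
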