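import Pool.Agent.Q99.FAL.Stm

/-!
# Fully augmented links: the sum of the operators

`t_XZ`: the operator of a circle with `m` crossings is the sum of the operators `Zm`.
-/

set_option autoImplicit false

namespace Pool.Agent.Q2.FAL

open Matrix Finset
open Pool.Agent.Q99.FAL
open Pool.Agent.H550R3.Jones (WM IsMod IsInt br brf W irr)
open Pool.Agent.W715.VC (rt)
open Pool.Agent.Q191.TW (cs)
open Pool.Agent.Q191.LB (sg)
open Pool.Agent.Q99.FW (TZ Kg K2 Xm)

theorem task_XZ : S_XZ := by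
  intro hUN hXC hXD hZC hZW hZD hEU hEW hZU hQV hQB N hN σ m
  obtain ⟨c, hc⟩ : ∃ c : ℂ, c = Kg N (sg σ) ^ m * K2 N * N * (-1) ^ (N - 1) := ⟨_, rfl⟩
  obtain ⟨d, hd⟩ : ∃ d : ℕ → ℂ, d = fun n1 : ℕ =>
    cs N ((sg σ * m : ℝ) * (2 * (n1 : ℝ) - (N - 1)) ^ 2 / 4) := ⟨_, rfl⟩
  have key : Xm N σ m - c • ∑ n1 ∈ range N, d n1 • Zm N n1 = 0 := by
    have hE : ∀ n ∈ range N, Zm N n * (W (rt N) N).E = (W (rt N) N).E * Zm N n := fun n hn =>
      (hZC hEU hEW hZU N hN n (by positivity) (by exact_mod_cast mem_range.mp hn)).1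
    have hF : ∀ n ∈ range N, Zm N n * (W (rt N) N).F = (W (rt N) N).F * Zm N n := fun n hn =>
      (hZC hEU hEW hZU N hN n (by positivity) (by exact_mod_cast mem_range.mp hn)).2
    apply hUN N hN
    · rw [Matrix.sub_mul, Matrix.mul_sub, (hXC N hN σ m).1, Matrix.smul_mul, Matrix.mul_smul,
        Finset.sum_mul, Finset.mul_sum]
      congr 2
      refine Finset.sum_congr rfl fun n hn => ?_
      rw [Matrix.smul_mul, Matrix.mul_smul, hE n hn]
    · rw [Matrix.sub_mul, Matrix.mul_sub, (hXC N hN σ m).2.1, Matrix.smul_mul, Matrix.mul_smul,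
        Finset.sum_mul, Finset.mul_sum]
      congr 2
      refine Finset.sum_congr rfl fun n hn => ?_
      rw [Matrix.smul_mul, Matrix.mul_smul, hF n hn]
    · intro p q hpq
      by_contra hdv
      apply hpq
      have h1 : Xm N σ m p q = 0 := by
        by_contra h
        apply hdv
        have := (hXC N hN σ m).2.2 p q h
        have h2 : ((p.1 : ℕ) + (p.2 : ℕ) - ((q.1 : ℕ) + (q.2 : ℕ)) : ℤ) = 0 := by omega
        rw [h2]
        exact dvd_zero _
      have h2 : ∀ n : ℕ, Zm N n p q = 0 := by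
        intro n
        by_contra h
        exact hdv (hZW N hN n p q h)
      rw [Matrix.sub_apply, h1, Matrix.smul_apply, Matrix.sum_apply]
      rw [Finset.sum_eq_zero fun n _ => by rw [Matrix.smul_apply, h2 n, smul_zero]]
      simp
    · intro x
      rw [Matrix.sub_apply, Matrix.smul_apply, Matrix.sum_apply, hXD hQV N hN σ m x, hc, smul_eq_mul,
        sub_eq_zero]
      have e1 : ∀ n ∈ range N, (d n • Zm N (n : ℤ)) (⟨0, hN⟩, x) (⟨0, hN⟩, x) =
          (-1) ^ (N - 1) * (cs N ((sg σ * m : ℝ) * (2 * (n : ℝ) - (N - 1)) ^ 2 / 4) *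
            cs N ((n : ℝ) * (N - 1 - n) - ((N : ℝ) - 1) * (x : ℕ)) *
            ((bq N (x : ℕ) n * bq N (x : ℕ) (N - 1 - n) : ℝ) : ℂ)) := by
        intro n hn
        have hn' := mem_range.mp hn
        obtain ⟨n2, hn2⟩ : ∃ n2 : ℕ, n + n2 + 1 = N := ⟨N - 1 - n, by omega⟩
        have hz := hZD hQV hQB N hN n n2 hn2 x
        have hr : ((n2 : ℕ) : ℝ) = (N : ℝ) - 1 - n := by
          rw [← hn2]; push_cast; ring
        have hi : ((n2 : ℕ) : ℤ) = (N : ℤ) - 1 - n := by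
          rw [← hn2]; push_cast; ring
        rw [Matrix.smul_apply, hz, hr, hi, hd, smul_eq_mul]
        ring
      rw [Finset.sum_congr rfl e1, ← Finset.mul_sum]
      have e2 : ((-1 : ℂ) ^ (N - 1)) * ((-1 : ℂ) ^ (N - 1)) = 1 := by
        rw [← mul_pow]; simp
      generalize (∑ n1 ∈ range N, cs N ((sg σ * m : ℝ) * (2 * (n1 : ℝ) - (N - 1)) ^ 2 / 4) *
            cs N ((n1 : ℝ) * (N - 1 - n1) - ((N : ℝ) - 1) * (x : ℕ)) *
            ((bq N (x : ℕ) n1 * bq N (x : ℕ) (N - 1 - n1) : ℝ) : ℂ)) = S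
      linear_combination (-(Kg N (sg σ) ^ m * K2 N * N * S)) * e2
  rw [← sub_eq_zero]
  rw [← hc]
  simpa only [hd] using key

end Pool.Agent.Q2.FAL
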