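import Pool.Agent.Q2.FAL.QV

/-!
# The diagonal entries of the operators

`task_ZD`: the entries of `Zm` at `(0, x)`, `(0, x)`.
-/

set_option autoImplicit false

namespace Pool.Agent.Q2.FAL

open Finset
open Pool.Agent.Q99.FAL (bq ph uv wv zv Zm S_QV S_QB S_ZD)
open Pool.Agent.Q99.FW (TZ Tri)
open Pool.Agent.Q191.TW (cs cs_add cs_zero cs_ne cs_neg cs_period I_pow)
open Pool.Agent.W719.BS (D D_refl D_pos)

/-! ### the diagonal entries -/

theorem sum_mod {N : ℕ} (hN : 0 < N) (g : ℤ → ℂ) (i : ℤ) :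
    ∑ j ∈ range N, g (((j : ℤ) - i - 1) % N) = ∑ a ∈ range N, g a := by
  have hN' : (0 : ℤ) < N := by exact_mod_cast hN
  have hne : (N : ℤ) ≠ 0 := hN'.ne'
  refine Finset.sum_nbij' (fun j => (((j : ℤ) - i - 1) % N).toNat)
    (fun a => (((a : ℤ) + i + 1) % N).toNat) ?_ ?_ ?_ ?_ ?_
  · intro j _
    have h1 := Int.emod_nonneg ((j : ℤ) - i - 1) hne
    have h2 := Int.emod_lt_of_pos ((j : ℤ) - i - 1) hN'
    rw [mem_range]; omega
  · intro a _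
    have h1 := Int.emod_nonneg ((a : ℤ) + i + 1) hne
    have h2 := Int.emod_lt_of_pos ((a : ℤ) + i + 1) hN'
    rw [mem_range]; omega
  · intro j hj
    rw [mem_range] at hj
    have h1 := Int.emod_nonneg ((j : ℤ) - i - 1) hne
    have e : (((((j : ℤ) - i - 1) % N).toNat : ℕ) : ℤ) = ((j : ℤ) - i - 1) % N :=
      Int.toNat_of_nonneg h1
    simp only [e]
    have e2 : (((j : ℤ) - i - 1) % N + i + 1) % N = j := by
      have : (((j : ℤ) - i - 1) % N + i + 1) % N = (((j : ℤ) - i - 1) + (i + 1)) % N := by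
        rw [add_assoc, Int.emod_add_emod]
      rw [this]
      have e3 : ((j : ℤ) - i - 1) + (i + 1) = j := by ring
      rw [e3]
      exact Int.emod_eq_of_lt (by omega) (by omega)
    rw [e2]; simp
  · intro a ha
    rw [mem_range] at ha
    have h1 := Int.emod_nonneg ((a : ℤ) + i + 1) hne
    have e : (((((a : ℤ) + i + 1) % N).toNat : ℕ) : ℤ) = ((a : ℤ) + i + 1) % N :=
      Int.toNat_of_nonneg h1
    simp only [e]
    have e2 : (((a : ℤ) + i + 1) % N - i - 1) % N = a := by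
      rw [sub_sub, sub_eq_add_neg, Int.emod_add_emod]
      have e3 : ((a : ℤ) + i + 1) + -(i + 1) = a := by ring
      rw [e3]
      exact Int.emod_eq_of_lt (by omega) (by omega)
    rw [e2]; simp
  · intro j _
    have h1 := Int.emod_nonneg ((j : ℤ) - i - 1) hne
    have e : (((((j : ℤ) - i - 1) % N).toNat : ℕ) : ℤ) = ((j : ℤ) - i - 1) % N :=
      Int.toNat_of_nonneg h1
    rw [e]

theorem uv_zero {N : ℕ} (h : 0 < N) (i j : ℤ) (x : Fin N) :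
    uv N i j (⟨0, h⟩, x) = cs N (-(((x : ℕ) : ℝ) ^ 2 / 2 + ((N : ℝ) - 1) * (x : ℕ) +
      2 * j * (x : ℕ))) := by
  unfold uv ph
  have e : cs N (-(((((⟨0, h⟩ : Fin N) : ℕ) : ℤ) : ℝ) ^ 2 / 2 + ((N : ℝ) - 1) * ((0 : ℤ) : ℝ) *
      ((((⟨0, h⟩ : Fin N) : ℕ) : ℤ) : ℝ) + 2 * (i : ℝ) * ((((⟨0, h⟩ : Fin N) : ℕ) : ℤ) : ℝ))) = 1 := by
    rw [← cs_zero N]; congr 1; simp
  simp only [e, one_mul]
  congr 1
  push_cast; ring

theorem uv_ratio {N : ℕ} (h : 0 < N) (i j k l : ℤ) (x : Fin N) :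
    (uv N i j (⟨0, h⟩, x))⁻¹ * uv N k l (⟨0, h⟩, x) =
      cs N (-(2 * ((l : ℝ) - j) * (x : ℕ))) := by
  rw [uv_zero, uv_zero, ← cs_neg, ← cs_add]
  congr 1; ring

theorem cs_pow (N : ℕ) (y : ℝ) : ∀ b : ℕ, cs N y ^ b = cs N ((b : ℝ) * y)
  | 0 => by simp [cs_zero]
  | b + 1 => by
    rw [pow_succ, cs_pow N y b, ← cs_add]; congr 1; push_cast; ring

/-- the double sum -/
noncomputable def Fs (N : ℕ) (n1 n2 : ℤ) (x : ℕ) : ℂ :=
  ∑ a ∈ range N, ∑ b ∈ range N, cs N (((N : ℝ) - 1) * (a + 2 * b)) *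
    ((bq N n2 a * bq N n1 b * bq N n1 (a + b) : ℝ) : ℂ) * cs N (-(2 * (b : ℝ) * x))

theorem wv_ratio {N : ℕ} (h : 0 < N) (n1 i j c : ℤ) (x : Fin N) :
    (uv N i j (⟨0, h⟩, x))⁻¹ * wv N n1 (j + c) (⟨0, h⟩, x) =
      cs N (-(2 * (c : ℝ) * (x : ℕ))) * Fs N (N - 1 - n1) n1 x := by
  unfold wv Fs
  simp only [Finset.sum_apply, Pi.smul_apply, smul_eq_mul]
  rw [Finset.mul_sum, Finset.mul_sum]
  refine Finset.sum_congr rfl fun a _ => ?_
  rw [Finset.mul_sum, Finset.mul_sum]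
  refine Finset.sum_congr rfl fun b _ => ?_
  have h1 := uv_ratio h i j (j + c + a + b) (j + c + b) x
  have e1 : cs N (-(2 * (((j + c + b : ℤ) : ℝ) - j) * (x : ℕ))) =
      cs N (-(2 * (c : ℝ) * (x : ℕ))) * cs N (-(2 * (b : ℝ) * (x : ℕ))) := by
    rw [← cs_add]; congr 1; push_cast; ring
  rw [e1] at h1
  calc (uv N i j (⟨0, h⟩, x))⁻¹ * (cs N (((N : ℝ) - 1) * (a + 2 * b)) *
        ((bq N n1 a * bq N (N - 1 - n1) b * bq N (N - 1 - n1) (a + b) : ℝ) : ℂ) *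
        uv N (j + c + a + b) (j + c + b) (⟨0, h⟩, x)) =
      cs N (((N : ℝ) - 1) * (a + 2 * b)) *
        ((bq N n1 a * bq N (N - 1 - n1) b * bq N (N - 1 - n1) (a + b) : ℝ) : ℂ) *
        ((uv N i j (⟨0, h⟩, x))⁻¹ * uv N (j + c + a + b) (j + c + b) (⟨0, h⟩, x)) := by ring
    _ = _ := by rw [h1]; ring

/-- the entry as a product of two sums -/
theorem Zm_entry {N : ℕ} (h : 0 < N) (n1 : ℤ) (x : Fin N) :
    Zm N n1 (⟨0, h⟩, x) (⟨0, h⟩, x) = (N : ℂ)⁻¹ * cs N ((N : ℝ) - 1) *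
      (Fs N n1 (N - 1 - n1) x * Fs N (N - 1 - n1) n1 x) := by
  unfold Zm
  set g : ℤ → ℂ := fun α => ∑ c ∈ range N, cs N (((N : ℝ) - 1) * (α + 2 * c + 1)) *
    ((bq N (N - 1 - n1) α * bq N n1 c * bq N n1 (α + c) : ℝ) : ℂ) *
      cs N (-(2 * (c : ℝ) * (x : ℕ))) with hg
  have h1 : ∀ i j : ℤ, (uv N i j (⟨0, h⟩, x))⁻¹ * zv N n1 i j (⟨0, h⟩, x) =
      g ((j - i - 1) % N) * Fs N (N - 1 - n1) n1 x := by
    intro i j
    unfold zv
    simp only [Finset.sum_apply, Pi.smul_apply, smul_eq_mul]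
    rw [Finset.mul_sum, hg, Finset.sum_mul]
    refine Finset.sum_congr rfl fun c _ => ?_
    have h2 := wv_ratio h n1 i j c x
    calc _ = cs N (((N : ℝ) - 1) * (((j - i - 1) % N : ℤ) + 2 * c + 1)) *
          ((bq N (N - 1 - n1) ((j - i - 1) % N) * bq N n1 c * bq N n1 ((j - i - 1) % N + c) : ℝ) :
            ℂ) * ((uv N i j (⟨0, h⟩, x))⁻¹ * wv N n1 (j + c) (⟨0, h⟩, x)) := by ring
      _ = _ := by rw [h2]; push_cast; ring
  have h3 : ∑ i ∈ range N, ∑ j ∈ range N, (uv N i j (⟨0, h⟩, x))⁻¹ * zv N n1 i j (⟨0, h⟩, x) =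
      (N : ℂ) * ((∑ a ∈ range N, g a) * Fs N (N - 1 - n1) n1 x) := by
    have e1 : ∀ i ∈ range N, ∑ j ∈ range N, (uv N i j (⟨0, h⟩, x))⁻¹ *
        zv N n1 i j (⟨0, h⟩, x) = (∑ a ∈ range N, g a) * Fs N (N - 1 - n1) n1 x := by
      intro i _
      rw [Finset.sum_congr rfl (fun (j : ℕ) _ => h1 (i : ℤ) (j : ℤ)), ← Finset.sum_mul,
        sum_mod h g]
    rw [Finset.sum_congr rfl e1, Finset.sum_const, card_range, nsmul_eq_mul]
  have h4 : ∑ a ∈ range N, g a = cs N ((N : ℝ) - 1) * Fs N n1 (N - 1 - n1) x := by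
    unfold Fs
    rw [Finset.mul_sum]
    refine Finset.sum_congr rfl fun a _ => ?_
    rw [Finset.mul_sum, hg]
    refine Finset.sum_congr rfl fun c _ => ?_
    have e1 : cs N (((N : ℝ) - 1) * (((a : ℤ) : ℝ) + 2 * c + 1)) =
        cs N ((N : ℝ) - 1) * cs N (((N : ℝ) - 1) * (a + 2 * c)) := by
      rw [← cs_add]; congr 1; push_cast; ring
    rw [e1]; ring
  rw [h3, h4]
  have hN : (N : ℂ) ≠ 0 := by exact_mod_cast h.ne'
  field_simp

theorem cs_N {N : ℕ} (h : 0 < N) : cs N N = -1 := by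
  unfold cs
  have hN : (N : ℝ) ≠ 0 := by exact_mod_cast h.ne'
  have e : (Real.pi * N / N : ℝ) = Real.pi := by field_simp
  rw [e]; exact Complex.exp_pi_mul_I

theorem prod_cs (N : ℕ) (x : ℝ) : ∀ n : ℕ, ∏ u ∈ range n, cs N ((u : ℝ) - x) =
    cs N ((n : ℝ) * (n - 1) / 2 - n * x)
  | 0 => by simp [cs_zero]
  | n + 1 => by
    rw [prod_range_succ, prod_cs N x n, ← cs_add]
    congr 1
    push_cast; ring

theorem prod_s2 {N : ℕ} (x : ℕ) : ∀ n : ℕ, n ≤ x →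
    (∏ u ∈ range n, s2 N ((x : ℝ) - u)) * D N (x - n) = D N x
  | 0, _ => by simp
  | n + 1, h => by
    have ih := prod_s2 (N := N) x n (by omega)
    have e1 : x - n = (x - (n + 1)) + 1 := by omega
    rw [e1, D_succ'] at ih
    have e2 : (((x - (n + 1) : ℕ) : ℝ) + 1) = (x : ℝ) - n := by
      rw [Nat.cast_sub h]; push_cast; ring
    rw [e2] at ih
    rw [prod_range_succ, ← ih]
    ring

theorem prod_bq {N : ℕ} (x n : ℕ) (hx : x < N) (hn : n < N) :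
    ∏ u ∈ range n, s2 N ((x : ℝ) - u) = bq N x n * D N n := by
  rcases Nat.lt_or_ge x n with h | h
  · rw [bq_big N x n (by exact_mod_cast h), zero_mul]
    refine Finset.prod_eq_zero (mem_range.2 h) ?_
    unfold s2; simp
  · have h1 := prod_s2 (N := N) x n h
    rw [bq_eq N x n hx h]
    have p1 := (D_pos N n hn).ne'
    have p2 := (D_pos N (x - n) (by omega)).ne'
    have e : D N x / (D N n * D N (x - n)) * D N n = D N x / D N (x - n) := by field_simp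
    rw [e, eq_div_iff p2]
    exact h1

theorem Fs_eq (hQV : S_QV) (hQB : S_QB) {N : ℕ} (h : 0 < N) (n1 n2 : ℕ) (hn : n1 + n2 + 1 = N)
    (x : ℕ) (hx : x < N) :
    Fs N n1 n2 x = cs N ((n1 : ℝ) * n2 + n1 * (n1 - 1) / 2 - n1 * x) * Complex.I ^ n1 *
      ((bq N x n1 * D N n1 : ℝ) : ℂ) := by
  have hN : (N : ℝ) = n1 + n2 + 1 := by exact_mod_cast hn.symm
  have h1 : Fs N n1 n2 x = ∑ b ∈ range N, cs N (((N : ℝ) - 1) * (2 * b)) *
      ((bq N n1 b : ℝ) : ℂ) * cs N (-(2 * (b : ℝ) * x)) *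
      ∑ a ∈ range N, cs N (((N : ℝ) - 1) * a) *
        ((bq N n2 a * bq N n1 (((n1 : ℤ) - b) - a) : ℝ) : ℂ) := by
    unfold Fs
    rw [Finset.sum_comm]
    refine Finset.sum_congr rfl fun b _ => ?_
    rw [Finset.mul_sum]
    refine Finset.sum_congr rfl fun a _ => ?_
    have e1 : bq N n1 ((a : ℤ) + b) = bq N n1 (((n1 : ℤ) - b) - a) := by
      rw [← bq_symm N n1 ((a : ℤ) + b)]; congr 1; ring
    have e2 : cs N (((N : ℝ) - 1) * (a + 2 * b)) =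
        cs N (((N : ℝ) - 1) * (2 * b)) * cs N (((N : ℝ) - 1) * a) := by
      rw [← cs_add]; congr 1; ring
    rw [e1, e2]
    push_cast
    ring
  have h2 : ∀ b ∈ range N, cs N (((N : ℝ) - 1) * (2 * b)) *
      ((bq N n1 b : ℝ) : ℂ) * cs N (-(2 * (b : ℝ) * x)) *
      ∑ a ∈ range N, cs N (((N : ℝ) - 1) * a) *
        ((bq N n2 a * bq N n1 (((n1 : ℤ) - b) - a) : ℝ) : ℂ) =
      cs N ((n1 : ℝ) * n2) * (((bq N n1 b : ℝ) : ℂ) * cs N (-2 - 2 * x - n2) ^ b) := by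
    intro b _
    rcases Nat.lt_or_ge n1 b with hb | hb
    · rw [bq_big N n1 b (by exact_mod_cast hb)]; simp
    · have e1 := hQV N h n1 n2 (n1 - b) hn (by omega)
      have e2 : (((n1 - b : ℕ) : ℤ)) = (n1 : ℤ) - b := by omega
      have e3 : (((n1 - b : ℕ) : ℝ)) = (n1 : ℝ) - b := by rw [Nat.cast_sub hb]
      rw [e2, e3] at e1
      rw [e1]
      rw [cs_pow]
      have e5 : cs N (((N : ℝ) - 1) * (2 * b)) = cs N (-2 * b) := by
        rw [← cs_period h (-2 * b) b]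
        congr 1
        push_cast; ring
      rw [e5]
      have e6 : cs N ((n1 : ℝ) * n2) * (((bq N n1 b : ℝ) : ℂ) * cs N ((b : ℝ) * (-2 - 2 * x - n2))) =
          ((bq N n1 b : ℝ) : ℂ) * (cs N (-2 * b) * cs N (-(2 * (b : ℝ) * x)) *
            cs N ((n2 : ℝ) * (n1 - b))) := by
        rw [← cs_add, ← cs_add, mul_left_comm, ← cs_add]
        congr 2; ring
      rw [e6]; ring
  rw [h1, Finset.sum_congr rfl h2, ← Finset.mul_sum, hQB N h n1 (by omega) _,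
    ← Finset.prod_range_reflect]
  have h3 : ∀ u ∈ range n1, (1 + cs N (-2 - 2 * x - n2) *
      cs N ((n1 : ℝ) - 1 - 2 * ((n1 - 1 - u : ℕ) : ℝ))) =
      cs N ((u : ℝ) - x) * (Complex.I * ((s2 N ((x : ℝ) - u) : ℝ) : ℂ)) := by
    intro u hu
    rw [mem_range] at hu
    have e1 : ((n1 - 1 - u : ℕ) : ℝ) = (n1 : ℝ) - 1 - u := by
      rw [Nat.sub_sub, Nat.cast_sub (by omega)]; push_cast; ring
    have e2 : cs N (-2 - 2 * x - n2) * cs N ((n1 : ℝ) - 1 - 2 * ((n1 : ℝ) - 1 - u)) =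
        -cs N (2 * ((u : ℝ) - x)) := by
      have e3 : cs N (-2 - 2 * x - n2) * cs N ((n1 : ℝ) - 1 - 2 * ((n1 : ℝ) - 1 - u)) * cs N N =
          cs N (2 * ((u : ℝ) - x)) := by
        rw [← cs_add, ← cs_add]; congr 1; rw [hN]; ring
      rw [cs_N h] at e3
      rw [← e3]; ring
    rw [e1, e2, s2_cs]
    have e4 : cs N (2 * ((u : ℝ) - x)) = cs N ((u : ℝ) - x) * cs N (-((x : ℝ) - u)) := by
      rw [← cs_add]; congr 1; ring
    have e5 : (1 : ℂ) = cs N ((u : ℝ) - x) * cs N ((x : ℝ) - u) := by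
      rw [← cs_add, ← cs_zero N]; congr 1; ring
    rw [e4]
    nth_rw 1 [e5]
    linear_combination ((cs N ((u : ℝ) - x) * cs N ((x : ℝ) - u)) -
      cs N ((u : ℝ) - x) * cs N (-((x : ℝ) - u))) * Complex.I_mul_I
  rw [Finset.prod_congr rfl h3, Finset.prod_mul_distrib, Finset.prod_mul_distrib, prod_cs,
    Finset.prod_const, card_range, ← Complex.ofReal_prod, prod_bq x n1 hx (by omega)]
  have e7 : cs N ((n1 : ℝ) * n2 + n1 * (n1 - 1) / 2 - n1 * x) = cs N ((n1 : ℝ) * n2) *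
      cs N ((n1 : ℝ) * (n1 - 1) / 2 - n1 * x) := by
    rw [← cs_add]; congr 1; ring
  rw [e7]; ring

theorem cs_neg_one_pow {N : ℕ} (h : 0 < N) : ∀ k : ℕ, cs N ((N : ℝ) * k) = (-1) ^ k
  | 0 => by simp [cs_zero]
  | k + 1 => by
    rw [pow_succ, ← cs_neg_one_pow h k, ← cs_N h, ← cs_add]
    congr 1
    push_cast; ring

theorem task_ZD : S_ZD := by
  intro hQV hQB N h n1 n2 hn x
  have hN : (N : ℝ) = n1 + n2 + 1 := by exact_mod_cast hn.symm
  have hN' : (N : ℂ) ≠ 0 := by exact_mod_cast h.ne'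
  have e0 : (N : ℤ) - 1 - n1 = n2 := by omega
  rw [Zm_entry h n1 x, e0, Fs_eq hQV hQB h n1 n2 hn x x.2,
    Fs_eq hQV hQB h n2 n1 (by omega) x x.2]
  have h1 := D_refl N n1 n2 hn
  have h2 : Complex.I ^ n1 * Complex.I ^ n2 = cs N (((n1 : ℝ) + n2) * N / 2) := by
    rw [← pow_add, I_pow h]; congr 1; push_cast; ring
  have h3 : cs N ((N : ℝ) - 1) * (cs N ((n1 : ℝ) * n2 + n1 * (n1 - 1) / 2 - n1 * (x : ℕ)) *
      cs N ((n2 : ℝ) * n1 + n2 * (n2 - 1) / 2 - n2 * (x : ℕ))) * cs N (((n1 : ℝ) + n2) * N / 2) =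
      (-1) ^ (N - 1) * cs N ((n1 : ℝ) * n2 - ((N : ℝ) - 1) * (x : ℕ)) := by
    rw [← cs_neg_one_pow h (N - 1), ← cs_add, ← cs_add, ← cs_add, ← cs_add]
    congr 1
    have : ((N - 1 : ℕ) : ℝ) = (N : ℝ) - 1 := by
      rw [Nat.cast_sub (by omega)]; simp
    rw [this, hN]
    ring
  have h4 : (((D N n1 : ℝ) : ℂ) * ((D N n2 : ℝ) : ℂ)) = N := by
    rw [← Complex.ofReal_mul, h1]; simp
  calc _ = (N : ℂ)⁻¹ * (((D N n1 : ℝ) : ℂ) * ((D N n2 : ℝ) : ℂ)) *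
        (cs N ((N : ℝ) - 1) * (cs N ((n1 : ℝ) * n2 + n1 * (n1 - 1) / 2 - n1 * (x : ℕ)) *
        cs N ((n2 : ℝ) * n1 + n2 * (n2 - 1) / 2 - n2 * (x : ℕ))) *
        (Complex.I ^ n1 * Complex.I ^ n2)) *
        (((bq N (x : ℕ) n1 : ℝ) : ℂ) * ((bq N (x : ℕ) n2 : ℝ) : ℂ)) := by
        push_cast; ring
    _ = _ := by
        rw [h2, h3, h4]
        push_cast
        field_simp

end Pool.Agent.Q2.FAL
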